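import Mathlib
import Pool.Agent.Helper844_FA.Final

/-!
Over a field of characteristic zero, a Lie algebra whose universal enveloping algebra is a free
associative algebra of rank at most two is a free Lie algebra (of the same rank).
-/

set_option autoImplicit false

theorem Pool.Agent.Results.MP_a55e6f_al.RankTwo.result (K : Type) [Field K] [CharZero K]
    (L : Type) [LieRing L] [LieAlgebra K L] (Y : Type) (hY : Cardinal.mk Y ≤ 2)
    (h : Nonempty (UniversalEnvelopingAlgebra K L ≃ₐ[K] FreeAlgebra K Y)) :
    Nonempty (L ≃ₗ⁅K⁆ FreeLieAlgebra K Y) :=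
  Pool.Agent.Helper844_FA.main K L Y hY h
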